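import Pool.Agent.Helper70.MM.Goals5

/-!
# Project MM, packet MM5-NEARB
-/

set_option autoImplicit false

open MeasureTheory Set Metric
open scoped ENNReal RealInnerProductSpace Topology
open Pool.Agent.Results.MP_91ee6f_gt
open Pool.Agent.Helper67.MaxMeas (bil)
open Pool.Agent.Helper70.MM

namespace Pool.Agent.Helper30.MM5

theorem pot (n : ℕ) (s : ℝ) (x : En n) :
    potential (sphUnif n s) x = ∫ θ, Real.exp (-dist x (s • θ)) ∂(sphUnif n 1) := by
  have h := (fSPH2 n 1).2 s
  rw [mul_one] at h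
  unfold potential
  rw [← h, integral_map (by fun_prop) (by fun_prop)]

theorem sqd {n : ℕ} {e θ : En n} (he : ‖e‖ = 1) (hθ : ‖θ‖ = 1) :
    dist e θ ^ 2 = 2 - 2 * inner ℝ e θ := by
  rw [dist_eq_norm, norm_sub_sq_real, he, hθ]
  ring

theorem dist_formula {n : ℕ} {e θ : En n} (he : ‖e‖ = 1) (hθ : ‖θ‖ = 1) (r s : ℝ) :
    dist (r • e) (s • θ) = Real.sqrt ((s - r) ^ 2 + r * s * dist e θ ^ 2) := by
  have h : dist (r • e) (s • θ) ^ 2 = (s - r) ^ 2 + r * s * dist e θ ^ 2 := by
    rw [sqd he hθ, dist_eq_norm, norm_sub_sq_real, norm_smul, norm_smul, he, hθ,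
      inner_smul_left, inner_smul_right, mul_one, mul_one, Real.norm_eq_abs, Real.norm_eq_abs,
      sq_abs, sq_abs]
    simp only [conj_trivial]
    ring
  rw [← h, Real.sqrt_sq dist_nonneg]

/-- the pointwise lower bound -/
theorem low {R r d : ℝ} (hR : 0 < R) (h1 : R / 2 ≤ r) (h2 : r < R) (hd : 0 < d) (hd2 : d ≤ 2) :
    Real.exp (-Real.sqrt (R * r) * d) - (R - r) ^ 2 / (R * d) ≤
      Real.exp (-Real.sqrt ((R - r) ^ 2 + r * R * d ^ 2)) ∧
    Real.exp (-(R * d)) + (R - r) / 2 * (Real.exp (-(2 * R)) * d) ≤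
      Real.exp (-Real.sqrt (R * r) * d) := by
  have hr : 0 < r := by linarith
  obtain ⟨m, hm⟩ : ∃ m, m = Real.sqrt (R * r) := ⟨_, rfl⟩
  have hm2 : m ^ 2 = R * r := by rw [hm, Real.sq_sqrt (by positivity)]
  have hm0 : 0 < m := by rw [hm]; positivity
  have hmR : R / 2 ≤ m := by nlinarith
  have hmR' : m ≤ R - (R - r) / 2 := by nlinarith [sq_nonneg (R - r)]
  rw [← hm]
  constructor
  · have h3 : Real.sqrt ((R - r) ^ 2 + r * R * d ^ 2) ≤ m * d + (R - r) ^ 2 / (2 * m * d) := by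
      apply Real.sqrt_le_iff.2
      refine ⟨by positivity, ?_⟩
      have h4 : (m * d + (R - r) ^ 2 / (2 * m * d)) ^ 2 =
          m ^ 2 * d ^ 2 + (R - r) ^ 2 + ((R - r) ^ 2 / (2 * m * d)) ^ 2 := by
        field_simp
        ring
      rw [h4, hm2]
      nlinarith [sq_nonneg ((R - r) ^ 2 / (2 * m * d))]
    have h5 : (R - r) ^ 2 / (2 * m * d) ≤ (R - r) ^ 2 / (R * d) := by
      apply div_le_div_of_nonneg_left (sq_nonneg _) (by positivity)
      nlinarith
    have h6 : Real.exp (-m * d) * (1 - (R - r) ^ 2 / (2 * m * d)) ≤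
        Real.exp (-Real.sqrt ((R - r) ^ 2 + r * R * d ^ 2)) := by
      have h7 : 1 - (R - r) ^ 2 / (2 * m * d) ≤ Real.exp (-((R - r) ^ 2 / (2 * m * d))) := by
        have := Real.add_one_le_exp (-((R - r) ^ 2 / (2 * m * d)))
        linarith
      calc _ ≤ Real.exp (-m * d) * Real.exp (-((R - r) ^ 2 / (2 * m * d))) :=
            mul_le_mul_of_nonneg_left h7 (Real.exp_pos _).le
        _ = Real.exp (-(m * d + (R - r) ^ 2 / (2 * m * d))) := by
            rw [← Real.exp_add]
            congr 1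
            ring
        _ ≤ _ := Real.exp_le_exp.2 (by linarith)
    have h8 : Real.exp (-m * d) ≤ 1 := by
      rw [Real.exp_le_one_iff]
      nlinarith
    have h9 : 0 ≤ (R - r) ^ 2 / (2 * m * d) := by positivity
    nlinarith
  · have h3 : Real.exp (-(R * d)) * (1 + (R - r) / 2 * d) ≤ Real.exp (-m * d) := by
      have h4 : 1 + (R - r) / 2 * d ≤ Real.exp ((R - r) / 2 * d) := by
        have := Real.add_one_le_exp ((R - r) / 2 * d)
        linarith
      calc _ ≤ Real.exp (-(R * d)) * Real.exp ((R - r) / 2 * d) :=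
            mul_le_mul_of_nonneg_left h4 (Real.exp_pos _).le
        _ = Real.exp (-(R * d) + (R - r) / 2 * d) := by rw [← Real.exp_add]
        _ ≤ _ := Real.exp_le_exp.2 (by nlinarith)
    have h5 : Real.exp (-(2 * R)) ≤ Real.exp (-(R * d)) := Real.exp_le_exp.2 (by nlinarith)
    have h6 : (R - r) / 2 * (Real.exp (-(2 * R)) * d) ≤
        (R - r) / 2 * (Real.exp (-(R * d)) * d) := by
      have : 0 ≤ (R - r) / 2 := by linarith
      gcongr
    nlinarith

/-- the pointwise upper bound -/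
theorem upp {R r d : ℝ} (hR : 0 < R) (h1 : R / 2 ≤ r) (h2 : r < R) (h3 : R - r ≤ 1) (hd : 0 < d)
    (hd2 : d ≤ 2) : Real.exp (-(R * d)) + Real.exp (-(r * d)) ≤
      2 * Real.exp (-Real.sqrt (R * r) * d) + 2 * (R - r) ^ 2 := by
  have hr : 0 < r := by linarith
  obtain ⟨m, hm⟩ : ∃ m, m = Real.sqrt (R * r) := ⟨_, rfl⟩
  have hm2 : m ^ 2 = R * r := by rw [hm, Real.sq_sqrt (by positivity)]
  have hm0 : 0 < m := by rw [hm]; positivity
  rw [← hm]
  have hmm : m ≤ (R + r) / 2 := by nlinarith [sq_nonneg (R - r)]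
  obtain ⟨x, hx⟩ : ∃ x, x = (R - r) * d / 2 := ⟨_, rfl⟩
  have hx0 : 0 ≤ x := by rw [hx]; have : 0 ≤ R - r := by linarith
                         positivity
  have hx1 : x ≤ 1 := by rw [hx]; nlinarith
  have e1 : Real.exp (-(R * d)) + Real.exp (-(r * d)) =
      Real.exp (-((R + r) / 2 * d)) * (2 * Real.cosh x) := by
    rw [Real.cosh_eq, hx, mul_div_cancel₀ _ (by norm_num : (2 : ℝ) ≠ 0), mul_add, ← Real.exp_add,
      ← Real.exp_add, add_comm]
    congr 2 <;> ring
  have e2 : Real.cosh x ≤ 1 + x ^ 2 := by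
    refine (Real.cosh_le_exp_half_sq x).trans ?_
    have h4 : x ^ 2 / 2 ≤ 1 / 2 := by nlinarith
    have h5 := Real.exp_bound_div_one_sub_of_interval (x := x ^ 2 / 2) (by positivity) (by linarith)
    refine h5.trans ?_
    rw [div_le_iff₀ (by linarith)]
    nlinarith [sq_nonneg x]
  have e3 : Real.exp (-((R + r) / 2 * d)) ≤ Real.exp (-m * d) :=
    Real.exp_le_exp.2 (by nlinarith)
  have e4 : Real.exp (-m * d) ≤ 1 := by
    rw [Real.exp_le_one_iff]
    nlinarith
  have e5 : x ^ 2 ≤ (R - r) ^ 2 := by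
    rw [hx]
    have : ((R - r) * d / 2) ^ 2 = (R - r) ^ 2 * (d / 2) ^ 2 := by ring
    rw [this]
    have : (d / 2) ^ 2 ≤ 1 := by nlinarith
    nlinarith [sq_nonneg (R - r)]
  rw [e1]
  have hc : 0 ≤ 2 * Real.cosh x := by have := Real.cosh_pos x; linarith
  calc _ ≤ Real.exp (-m * d) * (2 * Real.cosh x) := mul_le_mul_of_nonneg_right e3 hc
    _ ≤ Real.exp (-m * d) * (2 * (1 + x ^ 2)) :=
        mul_le_mul_of_nonneg_left (by linarith) (Real.exp_pos _).le
    _ = 2 * Real.exp (-m * d) + Real.exp (-m * d) * (2 * x ^ 2) := by ring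
    _ ≤ 2 * Real.exp (-m * d) + 1 * (2 * (R - r) ^ 2) := by
        gcongr
    _ = _ := by ring

theorem ae_norm {n : ℕ} (hn : 3 ≤ n) : ∀ᵐ θ ∂(sphUnif n 1), ‖θ‖ = 1 :=
  (fSPH1 n (by omega) 1).2.1 zero_le_one

/-- the energy form of two spheres -/
theorem Bform {n : ℕ} (hn : 3 ≤ n) {e : En n} (he : ‖e‖ = 1) {s t : ℝ} (hs : 0 < s) (ht : 0 < t) :
    bil (sphUnif n s) (sphUnif n t) = potential (sphUnif n t) (s • e) ∧
    potential (sphUnif n t) (s • e) =
      ∫ θ, Real.exp (-Real.sqrt ((t - s) ^ 2 + s * t * dist e θ ^ 2)) ∂(sphUnif n 1) := by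
  have hp := (fSPH1 n (by omega) s).1
  constructor
  · have h1 : bil (sphUnif n s) (sphUnif n t) =
        ∫ x, potential (sphUnif n t) x ∂(sphUnif n s) := rfl
    rw [h1]
    have h2 : (fun x => potential (sphUnif n t) x) =ᵐ[sphUnif n s]
        fun _ => potential (sphUnif n t) (s • e) := by
      filter_upwards [(fSPH1 n (by omega) s).2.1 hs.le] with x hx
      refine (fMINP n (by omega) t ht).2.2.1 x (s • e) ?_
      rw [hx, norm_smul, he, mul_one, Real.norm_eq_abs, abs_of_pos hs]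
    rw [integral_congr_ae h2]
    simp
  · rw [pot]
    refine integral_congr_ae ?_
    filter_upwards [ae_norm hn] with θ hθ
    rw [dist_formula he hθ]

/-- no atoms -/
theorem null {n : ℕ} (hn : 3 ≤ n) {C : ℝ} (hC : 0 < C)
    (h : ∀ (e : En n) (s r : ℝ), ‖e‖ = 1 → 0 ≤ s → 0 ≤ r →
      0 < max r s → Integrable (fun y => 1 / dist (r • e) y) (sphUnif n s) ∧
      ∫ y, 1 / dist (r • e) y ∂(sphUnif n s) ≤ C / max r s) {e : En n} (he : ‖e‖ = 1) :
    ∀ᵐ θ ∂(sphUnif n 1), θ ≠ e := by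
  have hp := (fSPH1 n (by omega) 1).1
  have h0 : (sphUnif n 1).real {e} = 0 := by
    by_contra hne
    have hpos : 0 < (sphUnif n 1).real {e} := lt_of_le_of_ne measureReal_nonneg (Ne.symm hne)
    obtain ⟨ε, hε⟩ : ∃ ε, ε = (sphUnif n 1).real {e} / (2 * C) := ⟨_, rfl⟩
    have hε0 : 0 < ε := by rw [hε]; positivity
    obtain ⟨h1, h2⟩ := h e 1 (1 + ε) he zero_le_one (by linarith) (by positivity)
    have h3 : ∫ y in {e}, 1 / dist ((1 + ε) • e) y ∂(sphUnif n 1) ≤
        ∫ y, 1 / dist ((1 + ε) • e) y ∂(sphUnif n 1) :=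
      setIntegral_le_integral h1 (Filter.Eventually.of_forall fun y => by
        show 0 ≤ 1 / dist ((1 + ε) • e) y
        positivity)
    rw [integral_singleton] at h3
    have h4 : dist ((1 + ε) • e) e = ε := by
      rw [dist_eq_norm, add_smul, one_smul, add_sub_cancel_left, norm_smul, he, mul_one,
        Real.norm_eq_abs, abs_of_pos hε0]
    rw [h4] at h3
    rw [max_eq_left (by linarith : (1 : ℝ) ≤ 1 + ε)] at h2
    have h5 : C / (1 + ε) ≤ C := div_le_self hC.le (by linarith)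
    have h6 : (sphUnif n 1).real {e} * (1 / ε) ≤ C := by
      have := h3.trans (h2.trans h5)
      simpa using this
    rw [mul_one_div, div_le_iff₀ hε0, hε] at h6
    have h7 : C * ((sphUnif n 1).real {e} / (2 * C)) = (sphUnif n 1).real {e} / 2 := by
      field_simp
    rw [h7] at h6
    linarith
  have h1 : (sphUnif n 1) {e} = 0 := by
    rwa [measureReal_def, ENNReal.toReal_eq_zero_iff, or_iff_left (measure_ne_top _ _)] at h0
  rw [ae_iff]
  simpa using h1

theorem mean_dist {n : ℕ} (hn : 3 ≤ n) {e : En n} (he : ‖e‖ = 1) :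
    Integrable (fun θ => dist e θ) (sphUnif n 1) ∧ 1 ≤ ∫ θ, dist e θ ∂(sphUnif n 1) := by
  have hp := (fSPH1 n (by omega) 1).1
  have hd2 : ∀ᵐ θ ∂(sphUnif n 1), dist e θ ≤ 2 := by
    filter_upwards [ae_norm hn] with θ hθ
    rw [dist_eq_norm]
    refine (norm_sub_le _ _).trans ?_
    rw [he, hθ]
    norm_num
  have hi : Integrable (fun θ => dist e θ) (sphUnif n 1) := by
    refine Integrable.of_bound (by fun_prop) 2 ?_
    filter_upwards [hd2] with θ hθ
    rwa [Real.norm_eq_abs, abs_of_nonneg dist_nonneg]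
  refine ⟨hi, ?_⟩
  have hi2 : Integrable (fun θ => inner ℝ e θ) (sphUnif n 1) := by
    refine Integrable.of_bound (by fun_prop) 1 ?_
    filter_upwards [ae_norm hn] with θ hθ
    refine (norm_inner_le_norm e θ).trans ?_
    rw [he, hθ]
    norm_num
  have h0 : ∫ θ, inner ℝ e θ ∂(sphUnif n 1) = 0 := by
    have h1 := (fSPH2 n 1).1 (LinearIsometryEquiv.neg ℝ)
    have h2 : ∫ θ, inner ℝ e θ ∂(sphUnif n 1) = -∫ θ, inner ℝ e θ ∂(sphUnif n 1) := by
      conv_lhs => rw [← h1]
      rw [integral_map (by fun_prop) (by fun_prop), ← integral_neg]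
      refine integral_congr_ae (Filter.Eventually.of_forall fun θ => ?_)
      simp
    linarith
  have h3 : ∫ θ, (1 - inner ℝ e θ) ∂(sphUnif n 1) = 1 := by
    rw [integral_sub (integrable_const _) hi2, h0]
    simp
  refine h3.symm.le.trans ?_
  refine integral_mono_ae ((integrable_const _).sub hi2) hi ?_
  filter_upwards [ae_norm hn, hd2] with θ hθ hθ2
  have := sqd he hθ
  have h4 : 0 ≤ dist e θ := dist_nonneg
  show 1 - inner ℝ e θ ≤ dist e θ
  nlinarith

theorem nearb (hI : INV) : NEARB := by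
  intro n hn
  obtain ⟨C, hC, h⟩ := hI n hn
  refine ⟨2 * C, by positivity, ?_⟩
  intro e he R r hR h1 h2 h3
  have hp := (fSPH1 n (by omega) 1).1
  have hr : 0 < r := by linarith
  have hnull := null hn hC h he
  obtain ⟨hdi, hd1⟩ := mean_dist hn he
  obtain ⟨hinvi, hinv⟩ := h e 1 1 he zero_le_one zero_le_one (by norm_num)
  rw [max_self, div_one] at hinv
  simp only [one_smul] at hinvi hinv
  have hae : ∀ᵐ θ ∂(sphUnif n 1), 0 < dist e θ ∧ dist e θ ≤ 2 := by
    filter_upwards [ae_norm hn, hnull] with θ hθ hθ2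
    refine ⟨dist_pos.2 (Ne.symm hθ2), ?_⟩
    rw [dist_eq_norm]
    refine (norm_sub_le _ _).trans ?_
    rw [he, hθ]
    norm_num
  have hie : ∀ f : En n → ℝ, Continuous f → (∀ θ, 0 ≤ f θ) →
      Integrable (fun θ => Real.exp (-f θ)) (sphUnif n 1) := by
    intro f hf hf0
    refine Integrable.of_bound (by fun_prop) 1 (Filter.Eventually.of_forall fun θ => ?_)
    rw [Real.norm_eq_abs, abs_of_pos (Real.exp_pos _), Real.exp_le_one_iff]
    linarith [hf0 θ]
  have iR := hie (fun θ => R * dist e θ) (by fun_prop) (fun θ => by positivity)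
  have ir := hie (fun θ => r * dist e θ) (by fun_prop) (fun θ => by positivity)
  have im := hie (fun θ => Real.sqrt (R * r) * dist e θ) (by fun_prop) (fun θ => by positivity)
  have ik := hie (fun θ => Real.sqrt ((R - r) ^ 2 + r * R * dist e θ ^ 2)) (by fun_prop)
    (fun θ => by positivity)
  have eR : sphEnergy n R = ∫ θ, Real.exp (-(R * dist e θ)) ∂(sphUnif n 1) := by
    have e1 : sphEnergy n R = bil (sphUnif n R) (sphUnif n R) := rfl
    rw [e1, (Bform hn he hR hR).1, (Bform hn he hR hR).2]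
    refine integral_congr_ae (Filter.Eventually.of_forall fun θ => ?_)
    show Real.exp _ = Real.exp _
    congr 2
    rw [sub_self, show (0 : ℝ) ^ 2 + R * R * dist e θ ^ 2 = (R * dist e θ) ^ 2 by ring,
      Real.sqrt_sq (by positivity)]
  have er : bil (sphUnif n r) (sphUnif n r) =
      ∫ θ, Real.exp (-(r * dist e θ)) ∂(sphUnif n 1) := by
    rw [(Bform hn he hr hr).1, (Bform hn he hr hr).2]
    refine integral_congr_ae (Filter.Eventually.of_forall fun θ => ?_)
    show Real.exp _ = Real.exp _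
    congr 2
    rw [sub_self, show (0 : ℝ) ^ 2 + r * r * dist e θ ^ 2 = (r * dist e θ) ^ 2 by ring,
      Real.sqrt_sq (by positivity)]
  have eRR : bil (sphUnif n R) (sphUnif n R) = sphEnergy n R := rfl
  obtain ⟨b1, b2⟩ := Bform hn he hr hR
  obtain ⟨c1, c2⟩ := Bform hn he hR hr
  have c3 : ∫ θ, Real.exp (-Real.sqrt ((r - R) ^ 2 + R * r * dist e θ ^ 2)) ∂(sphUnif n 1) =
      ∫ θ, Real.exp (-Real.sqrt ((R - r) ^ 2 + r * R * dist e θ ^ 2)) ∂(sphUnif n 1) := by
    refine integral_congr_ae (Filter.Eventually.of_forall fun θ => ?_)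
    show Real.exp _ = Real.exp _
    congr 3
    ring
  have hPP : PP e R r =
      ∫ θ, Real.exp (-Real.sqrt ((R - r) ^ 2 + r * R * dist e θ ^ 2)) ∂(sphUnif n 1) := b2
  rw [c1, c2, c3, b1, b2, eRR, er, hPP, eR]
  have hinvi' : Integrable (fun θ => (R - r) ^ 2 / (R * dist e θ)) (sphUnif n 1) := by
    refine (hinvi.const_mul ((R - r) ^ 2 / R)).congr (Filter.Eventually.of_forall fun θ => ?_)
    show (R - r) ^ 2 / R * (1 / dist e θ) = (R - r) ^ 2 / (R * dist e θ)
    rw [div_mul_div_comm, mul_one]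
  have hinv' : ∫ θ, (R - r) ^ 2 / (R * dist e θ) ∂(sphUnif n 1) ≤ C / R * (R - r) ^ 2 := by
    have e1 : ∫ θ, (R - r) ^ 2 / (R * dist e θ) ∂(sphUnif n 1) =
        (R - r) ^ 2 / R * ∫ θ, 1 / dist e θ ∂(sphUnif n 1) := by
      rw [← integral_const_mul]
      refine integral_congr_ae (Filter.Eventually.of_forall fun θ => ?_)
      show (R - r) ^ 2 / (R * dist e θ) = (R - r) ^ 2 / R * (1 / dist e θ)
      rw [div_mul_div_comm, mul_one]
    rw [e1]
    calc _ ≤ (R - r) ^ 2 / R * C := mul_le_mul_of_nonneg_left hinv (by positivity)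
      _ = _ := by ring
  -- the integrated lower bounds
  have k1 : ∫ θ, Real.exp (-(Real.sqrt (R * r) * dist e θ)) ∂(sphUnif n 1) -
      C / R * (R - r) ^ 2 ≤
      ∫ θ, Real.exp (-Real.sqrt ((R - r) ^ 2 + r * R * dist e θ ^ 2)) ∂(sphUnif n 1) := by
    have := integral_mono_ae (im.sub hinvi') ik (by
      filter_upwards [hae] with θ hθ
      have := (low hR h1 h2 hθ.1 hθ.2).1
      rw [neg_mul] at this
      exact this)
    rw [integral_sub' im hinvi'] at this
    linarith
  have k2 : ∫ θ, Real.exp (-(R * dist e θ)) ∂(sphUnif n 1) +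
      Real.exp (-(2 * R)) * (R - r) / 2 ≤
      ∫ θ, Real.exp (-(Real.sqrt (R * r) * dist e θ)) ∂(sphUnif n 1) := by
    have hdi' : Integrable (fun θ => (R - r) / 2 * (Real.exp (-(2 * R)) * dist e θ))
        (sphUnif n 1) := (hdi.const_mul _).const_mul _
    have := integral_mono_ae (iR.add hdi') im (by
      filter_upwards [hae] with θ hθ
      have := (low hR h1 h2 hθ.1 hθ.2).2
      rw [neg_mul] at this
      exact this)
    rw [integral_add' iR hdi', integral_const_mul, integral_const_mul] at this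
    have h4 : (R - r) / 2 * (Real.exp (-(2 * R)) * 1) ≤
        (R - r) / 2 * (Real.exp (-(2 * R)) * ∫ θ, dist e θ ∂(sphUnif n 1)) := by
      have : 0 ≤ (R - r) / 2 := by linarith
      gcongr
    linarith
  have k3 : ∫ θ, Real.exp (-(R * dist e θ)) ∂(sphUnif n 1) +
      ∫ θ, Real.exp (-(r * dist e θ)) ∂(sphUnif n 1) ≤
      2 * ∫ θ, Real.exp (-(Real.sqrt (R * r) * dist e θ)) ∂(sphUnif n 1) +
        2 * (R - r) ^ 2 := by
    have := integral_mono_ae (iR.add ir) ((im.const_mul 2).add (integrable_const (2 * (R - r) ^ 2)))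
      (by
        filter_upwards [hae] with θ hθ
        have := upp hR h1 h2 h3 hθ.1 hθ.2
        rw [neg_mul] at this
        exact this)
    rw [integral_add' iR ir, integral_add' (im.const_mul 2) (integrable_const _),
      integral_const_mul] at this
    simpa using this
  have hCR : 0 ≤ C / R * (R - r) ^ 2 := by positivity
  have e5 : 2 * C / R * (R - r) ^ 2 = 2 * (C / R * (R - r) ^ 2) := by ring
  have e6 : (2 + 2 * C / R) * (R - r) ^ 2 = 2 * (R - r) ^ 2 + 2 * (C / R * (R - r) ^ 2) := by ring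
  rw [e5, e6]
  constructor <;> linarith

end Pool.Agent.Helper30.MM5
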